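import Mathlib
import Pool.Agent.Helper17.R5.WIT
import Pool.Agent.Helper51.R5.ISO
import Pool.Agent.Helper51.R5.EMB
import Pool.Agent.Helper51.R5.FACT
import Pool.Agent.Helper29.R5.NORM
import Pool.Agent.Helper29.R5.BRA
import Pool.Agent.Helper29.R5.SUB
import Pool.Agent.Helper76.R5.INEQ
import Pool.Agent.Helper76.R5.FIB
import Pool.Agent.Helper1.R5.CNT1
import Pool.Agent.Helper73.R5.CNT
import Pool.Agent.Helper73.R5.EXTRA
import Pool.Agent.Helper73.R5.MULT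
import Pool.Agent.Helper1.R5.REL
import Pool.Agent.Helper1.R5.BND
import Pool.Agent.Helper16.R5.CERT
import Pool.Agent.Helper16.RK.HOM
import Pool.Agent.Helper16.RK.PAD
import Pool.Agent.Helper16.RK.LIN
import Pool.Agent.Helper16.RK.RANK
import Pool.Agent.Helper70.R5.SV1
import Pool.Agent.Helper70.R5.SV2
import Pool.Agent.Helper34.R5.SIEVE
import Pool.Agent.Helper46.R5.LINK
import Pool.Agent.Helper2.R5.FIN1
import Pool.Agent.Helper13.R5.FIN

/-! # Elliptic curves of rank at least five: `N_5(H) ≥ H ^ (5/12 - ε)` -/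

set_option autoImplicit false

namespace Pool.Agent.Results.MP_798d7d_nt.RankFive

open Pool.Helper17.R5

/-- For every `ε > 0` and all large `H` at least `H ^ (5/12 - ε)` reduced pairs `(A, B)` with
`4 A ^ 3 + 27 B ^ 2 ≠ 0` and `max (4 |A| ^ 3) (27 B ^ 2) ≤ H` give an elliptic curve
`y ^ 2 = x ^ 3 + A x + B` over `ℚ` of Mordell-Weil rank at least five. -/
theorem result : ∀ ε : ℝ, 0 < ε → ∃ H₀ : ℝ, ∀ H : ℝ, H₀ ≤ H →
    H ^ ((5 : ℝ) / 12 - ε) ≤
      ((Set.ncard {p : ℤ × ℤ |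
        4 * p.1 ^ 3 + 27 * p.2 ^ 2 ≠ 0 ∧
        (∀ q : ℕ, q.Prime → ¬ ((q : ℤ) ^ 4 ∣ p.1 ∧ (q : ℤ) ^ 6 ∣ p.2)) ∧
        (((max (4 * |p.1| ^ 3) (27 * p.2 ^ 2) : ℤ) : ℝ) ≤ H) ∧
        (5 : Cardinal) ≤ Module.rank ℤ
          (WeierstrassCurve.toAffine
            (⟨0, 0, 0, (p.1 : ℚ), (p.2 : ℚ)⟩ : WeierstrassCurve ℚ)).Point} : ℕ) : ℝ) := by
  have hrel := h1_REL
  have hbnd := h1_BND hrel
  have hwit := st_WIT st_ISO st_EMB st_FACT st_NORM st_BRA st_SUB st_INEQ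
  have hextra := st_EXTRA hwit (st_CNT (st_CNT1 st_FIB))
  have hrk := Pool.Agent.Helper97.RK.st_RANK Pool.Agent.Helper97.RK.st_HOM
    Pool.Agent.Helper97.RK.st_PAD Pool.Agent.Helper97.RK.st_LIN
  have hcert := st_CERT hrk hrel h1_PTS
  have hsieve := st_SIEVE (st_SV2 (st_SV1 hrel))
  have hlink := st_LINK hextra hrel hbnd
  exact st_FIN (st_FIN1 hcert hsieve st_MULT h1_PTS hbnd hlink)

end Pool.Agent.Results.MP_798d7d_nt.RankFive
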