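import Mathlib
import Pool.Agent.Helper16.NR.Stmts2
import Pool.Agent.Helper16.NR.CERT
import Pool.Agent.Helper16.NR.CNT2
import Pool.Agent.Helper16.NR.FIN2
import Pool.Agent.Helper41.NR.TOR
import Pool.Agent.Helper41.NR.RK2
import Pool.Agent.Helper37.NR.RK
import Pool.Agent.Helper89.NR.TRK
import Pool.Agent.Helper7.NR.FIB
import Pool.Agent.Helper53.NR.BAD
import Pool.Agent.Helper78.NR.GCD
import Pool.Agent.Helper38.NR.WSV
import Pool.Agent.Helper83.NR.RED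
import Pool.Agent.Helper35.NR.SZ

/-! # Elliptic curves of rank at least two: `N_2(H) ≥ c H ^ (2/3)` -/

set_option autoImplicit false

namespace Pool.Agent.Results.MP_798d7d_nt.RankTwo

open Pool.Helper16.NR

/-- There are `c > 0` and `H₀` such that for all `H ≥ H₀` at least `c H ^ (2/3)` reduced pairs
`(A, B)` with `4 A ^ 3 + 27 B ^ 2 ≠ 0` and `max (4 |A| ^ 3) (27 B ^ 2) ≤ H` give an elliptic curve
`y ^ 2 = x ^ 3 + A x + B` over `ℚ` of Mordell-Weil rank at least two. -/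
theorem result : ∃ c : ℝ, 0 < c ∧ ∃ H₀ : ℝ, ∀ H : ℝ, H₀ ≤ H →
    c * H ^ ((2 : ℝ) / 3) ≤
      ((Set.ncard {p : ℤ × ℤ |
        4 * p.1 ^ 3 + 27 * p.2 ^ 2 ≠ 0 ∧
        (∀ q : ℕ, q.Prime → ¬ ((q : ℤ) ^ 4 ∣ p.1 ∧ (q : ℤ) ^ 6 ∣ p.2)) ∧
        (((max (4 * |p.1| ^ 3) (27 * p.2 ^ 2) : ℤ) : ℝ) ≤ H) ∧
        (2 : Cardinal) ≤ Module.rank ℤ
          (WeierstrassCurve.toAffine
            (⟨0, 0, 0, (p.1 : ℚ), (p.2 : ℚ)⟩ : WeierstrassCurve ℚ)).Point} : ℕ) : ℝ) :=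
  st_FIN2 (st_CNT2 st_BAD st_FIB (st_RED (st_WSV st_GCD) st_SZ) st_SZ
    (st_TRK (st_RK st_CERT st_TOR st_RK2)))

end Pool.Agent.Results.MP_798d7d_nt.RankTwo
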