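import Mathlib
import Pool.Agent.Helper67.R6.All
import Pool.Agent.Helper17.R7.Asm
import Pool.Agent.Helper17.R8.Asm
import Pool.Agent.Helper17.RN.Asm
import Pool.Agent.Helper17.RT.Asm
import Pool.Agent.Helper67.R12.All
import Pool.Agent.Helper17.R612.Comb

/-! # Elliptic curves of rank at least `r`, `6 ≤ r ≤ 12`: lower bounds for `N_r(H)` -/

set_option autoImplicit false

namespace Pool.Agent.Results.MP_798d7d_nt.RanksSixToTwelve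

/-- For `r = 6, .., 12` and the exponents `α = 1/3, 1/4, 1/5, 5/36, 1/9, 1/10, 1/10`: for every
`ε > 0` the number of reduced pairs `(A, B)` of height at most `H` for which `y² = x³ + A x + B`
has Mordell-Weil rank at least `r` is at least `H ^ (α - ε)` for all large `H`. -/
theorem result :
    ∀ (r : ℕ) (α : ℝ),
      (r = 6 ∧ α = 1 / 3) ∨ (r = 7 ∧ α = 1 / 4) ∨ (r = 8 ∧ α = 1 / 5) ∨ (r = 9 ∧ α = 5 / 36) ∨
        (r = 10 ∧ α = 1 / 9) ∨ (r = 11 ∧ α = 1 / 10) ∨ (r = 12 ∧ α = 1 / 10) →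
      ∀ ε : ℝ, 0 < ε → ∃ H₀ : ℝ, ∀ H : ℝ, H₀ ≤ H →
        H ^ (α - ε) ≤
            ((Set.ncard {p : ℤ × ℤ |
                4 * p.1 ^ 3 + 27 * p.2 ^ 2 ≠ 0 ∧
                (∀ q : ℕ, q.Prime → ¬ ((q : ℤ) ^ 4 ∣ p.1 ∧ (q : ℤ) ^ 6 ∣ p.2)) ∧
                (((max (4 * |p.1| ^ 3) (27 * p.2 ^ 2) : ℤ) : ℝ) ≤ H) ∧
                (r : Cardinal) ≤ Module.rank ℤ
                  (WeierstrassCurve.toAffine
                    (⟨0, 0, 0, (p.1 : ℚ), (p.2 : ℚ)⟩ : WeierstrassCurve ℚ)).Point} : ℕ) : ℝ) := by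
  have h12 : ∀ ε : ℝ, 0 < ε → ∃ H₀ : ℝ, ∀ H : ℝ, H₀ ≤ H →
      H ^ ((1 : ℝ) / 10 - ε) ≤ (Pool.Helper17.RS.NR 12 H : ℝ) :=
    Pool.Helper17.R612.eps_of_c _ _ Pool.Helper67.R12.rank_twelve
  intro r α hr ε hε
  rcases hr with ⟨rfl, rfl⟩ | ⟨rfl, rfl⟩ | ⟨rfl, rfl⟩ | ⟨rfl, rfl⟩ | ⟨rfl, rfl⟩ | ⟨rfl, rfl⟩ |
    ⟨rfl, rfl⟩
  · exact Pool.Helper67.R6.rank_six ε hε
  · exact Pool.Helper66.R7.rank_seven ε hε
  · exact Pool.Helper17.R612.eps_of_c _ _ Pool.Helper17.R8.rank_eight ε hε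
  · exact Pool.Helper70.RN.rank_nine ε hε
  · exact Pool.Helper17.R612.eps_of_c _ _ Pool.Helper70.RT.rank_ten ε hε
  · obtain ⟨H₀, h⟩ := h12 ε hε
    refine ⟨H₀, fun H hH => (h H hH).trans ?_⟩
    have h2 : Pool.Helper17.RS.NR 12 H ≤ Pool.Helper17.RS.NR 11 H :=
      Pool.Helper17.R612.NR_anti (by norm_num) H
    exact Nat.cast_le.2 h2
  · exact h12 ε hε

end Pool.Agent.Results.MP_798d7d_nt.RanksSixToTwelve
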