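import Mathlib
import Pool.Agent.Helper97.RK.Fin5
import Pool.Agent.Helper11.RK.PELL4
import Pool.Agent.Helper11.RK.CONIC
import Pool.Agent.Helper7.RK.PELLN
import Pool.Agent.Helper63.RK.EXTRA
import Pool.Agent.Helper33.RK.SIEVE
import Pool.Agent.Helper16.RK.MULT
import Pool.Agent.Helper16.RK.PTS
import Pool.Agent.Helper16.RK.RANK
import Pool.Agent.Helper16.RK.PAD
import Pool.Agent.Helper16.RK.HOM
import Pool.Agent.Helper16.RK.LIN
import Pool.Agent.Helper16.RK.CERT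

set_option autoImplicit false

namespace Pool.Agent.Results.MP_798d7d_nt.RanksThreeFour

/-- For `r = 3` and `r = 4` and every `ε > 0`, the number of reduced pairs `(A, B)` of height at
most `H` for which `y² = x³ + A x + B` has Mordell-Weil rank at least `r` is at least
`H ^ ((10 - r) / 12 - ε)` for all large `H`. -/
theorem result :
    ∀ r : ℕ, (r = 3 ∨ r = 4) →
      ∀ ε : ℝ, 0 < ε → ∃ H₀ : ℝ, ∀ H : ℝ, H₀ ≤ H →
        H ^ ((10 - (r : ℝ)) / 12 - ε) ≤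
            ((Set.ncard {p : ℤ × ℤ |
                4 * p.1 ^ 3 + 27 * p.2 ^ 2 ≠ 0 ∧
                (∀ q : ℕ, q.Prime → ¬ ((q : ℤ) ^ 4 ∣ p.1 ∧ (q : ℤ) ^ 6 ∣ p.2)) ∧
                (((max (4 * |p.1| ^ 3) (27 * p.2 ^ 2) : ℤ) : ℝ) ≤ H) ∧
                (r : Cardinal) ≤ Module.rank ℤ
                  (WeierstrassCurve.toAffine
                    (⟨0, 0, 0, (p.1 : ℚ), (p.2 : ℚ)⟩ : WeierstrassCurve ℚ)).Point} : ℕ) : ℝ) := by
  have hc := Pool.Agent.Helper97.RK.st_CONIC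
    (Pool.Agent.Helper97.RK.st_PELLN Pool.Agent.Helper97.RK.st_PELL4)
  have hrk := Pool.Agent.Helper97.RK.st_RANK Pool.Agent.Helper97.RK.st_HOM
    Pool.Agent.Helper97.RK.st_PAD Pool.Agent.Helper97.RK.st_LIN
  exact Pool.Agent.Helper97.RK.st_FIN
    (Pool.Agent.Helper97.RK.st_CERT hrk Pool.Agent.Helper97.RK.st_PTS)
    (Pool.Agent.Helper97.RK.st_EXTRA hc) Pool.Agent.Helper97.RK.st_SIEVE
    Pool.Agent.Helper97.RK.st_MULT Pool.Agent.Helper97.RK.st_PTS

end Pool.Agent.Results.MP_798d7d_nt.RanksThreeFour
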